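import Pool.Agent.SYM7.Main

/-!
# SYM7: the main inequality
-/

set_option autoImplicit false

namespace Pool.Agent.SYM7

open Finset Pool.Agent.Helper63.PBD

variable {V : Type} [Fintype V] [DecidableEq V]

/-- the number of blocks is at least the number of points -/
theorem card_ge {P : Finset (Finset V)} (hP : P.IsPairwiseBalancedDesign)
    (hn : ∀ e ∈ P, #e < Fintype.card V) (hn2 : 2 ≤ Fintype.card V) : Fintype.card V ≤ #P := by
  have h1 := debruijn_erdos P hP univ (by rw [card_univ]; exact hn2) (by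
    intro B hB hsub
    have h2 := card_le_card hsub
    rw [card_univ] at h2
    exact absurd (hn B hB) (not_lt.2 h2))
  rw [card_univ] at h1
  exact h1.trans (card_le_card (filter_subset _ _))

omit [DecidableEq V] in
/-- number of blocks with size in a window -/
theorem window_le (P : Finset (Finset V)) (M : ℕ) (hM : ∀ t, #{e ∈ P | #e = t} ≤ M)
    (Q : Finset (Finset V)) (hQ : Q ⊆ P) (c D : ℝ) (hD : 0 ≤ D)
    (hW : ∀ e ∈ Q, |(#e : ℝ) - c| ≤ D) : (#Q : ℝ) ≤ M * (2 * D + 1) := by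
  classical
  have h1 := sizes_le P M hM Q hQ
    ((range (Fintype.card V + 1)).filter fun t => |((t : ℕ) : ℝ) - c| ≤ D) (by
      intro e he
      rw [mem_filter, mem_range]
      exact ⟨Nat.lt_succ_of_le (card_le_univ e), hW e he⟩)
  have h2 := card_window (Fintype.card V) c D hD
  calc (#Q : ℝ) ≤ ((M * #((range (Fintype.card V + 1)).filter
        fun t => |((t : ℕ) : ℝ) - c| ≤ D) : ℕ) : ℝ) := by exact_mod_cast h1
    _ = (M : ℝ) * (#((range (Fintype.card V + 1)).filter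
        fun t => |((t : ℕ) : ℝ) - c| ≤ D) : ℝ) := by push_cast; rfl
    _ ≤ M * (2 * D + 1) := mul_le_mul_of_nonneg_left h2 (Nat.cast_nonneg _)

theorem core (P : Finset (Finset V)) (hP : P.IsPairwiseBalancedDesign)
    (hn : ∀ e ∈ P, #e < Fintype.card V) (hn2 : 2 ≤ Fintype.card V) (M : ℕ)
    (hM : ∀ t, #{e ∈ P | #e = t} ≤ M) (T : Finset V) (hT : T.Nonempty)
    (hdiv : ∀ e ∈ P, ∃ w, 1 ≤ w ∧ w ≤ M ∧ #T ∣ w * #(e ∩ T)) :
    Fintype.card V ^ 2 * #T ≤ 10 ^ 5 * (#T).divisors.card ^ 2 * M ^ 5 := by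
  classical
  set n := Fintype.card V with hndef
  set m := #T with hmdef
  have hm1 : 1 ≤ m := card_pos.2 hT
  have hmn : m ≤ n := card_le_univ T
  have hcard : n ≤ #P := card_ge hP hn hn2
  have hτ1 : 1 ≤ m.divisors.card := card_pos.2 ⟨1, Nat.one_mem_divisors.2 (by omega)⟩
  have hM1 : 1 ≤ M := by
    have hPne : P.Nonempty := card_pos.1 (by omega)
    obtain ⟨e, he⟩ := hPne
    have h1 : 0 < #{e' ∈ P | #e' = #e} := card_pos.2 ⟨e, mem_filter.2 ⟨he, rfl⟩⟩
    exact lt_of_lt_of_le h1 (hM #e)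
  rcases Nat.lt_or_ge n 16 with hn16 | hn16
  · -- small `n`
    have h1 : n ^ 2 * m ≤ 15 ^ 2 * 15 := by
      apply Nat.mul_le_mul
      · exact Nat.pow_le_pow_left (by omega) 2
      · omega
    have h2 : 1 ≤ m.divisors.card ^ 2 := Nat.one_le_pow _ _ hτ1
    have h3 : 1 ≤ M ^ 5 := Nat.one_le_pow _ _ hM1
    calc n ^ 2 * m ≤ 15 ^ 2 * 15 := h1
      _ ≤ 10 ^ 5 * 1 * 1 := by norm_num
      _ ≤ 10 ^ 5 * m.divisors.card ^ 2 * M ^ 5 :=
        Nat.mul_le_mul (Nat.mul_le_mul_left _ h2) h3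
  set s := Nat.sqrt n with hs
  have hs1 : s * s ≤ n := Nat.sqrt_le n
  have hs2 : n < (s + 1) * (s + 1) := Nat.lt_succ_sqrt n
  have hs4 : 4 ≤ s := by
    by_contra hcon
    push Not at hcon
    nlinarith
  -- small blocks
  set Ps := P.filter (fun e => ¬ 2 * s + 2 ≤ #e) with hPs
  have hPs_card : n ≤ #Ps + s := by
    have h1 := card_filter_add_card_filter_not (s := P) (fun e => 2 * s + 2 ≤ #e)
    have h2 := large_le hP
    rw [← hndef, ← hs] at h2
    rw [hPs]
    omega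
  have hPsM : #Ps ≤ M * (2 * s) := by
    have h1 := sizes_le P M hM Ps (filter_subset _ _) (Icc 2 (2 * s + 1)) (by
      intro e he
      rw [hPs, mem_filter] at he
      rw [mem_Icc]
      exact ⟨hP.1 e he.1, by omega⟩)
    rw [Nat.card_Icc] at h1
    have h2 : 2 * s + 1 + 1 - 2 = 2 * s := by omega
    rw [h2] at h1
    exact h1
  have hn3 : n ≤ 3 * s * M := by
    have h1 : s ≤ s * M := Nat.le_mul_of_pos_right s hM1
    nlinarith
  rcases Nat.lt_or_ge m (2 * M) with hm2 | hm2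
  · -- `m < 2 M`
    have h1 : n ^ 2 ≤ 9 * n * M ^ 2 := by
      calc n ^ 2 ≤ (3 * s * M) ^ 2 := Nat.pow_le_pow_left hn3 2
        _ = 9 * (s * s) * M ^ 2 := by ring
        _ ≤ 9 * n * M ^ 2 := by
          apply Nat.mul_le_mul_right
          exact Nat.mul_le_mul_left _ hs1
    have h2 : n ≤ 9 * M ^ 2 := by
      have h3 : n * n ≤ n * (9 * M ^ 2) := by nlinarith
      exact Nat.le_of_mul_le_mul_left h3 (by omega)
    have h2' : 1 ≤ m.divisors.card ^ 2 := Nat.one_le_pow _ _ hτ1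
    calc n ^ 2 * m ≤ (9 * M ^ 2) ^ 2 * (2 * M) :=
          Nat.mul_le_mul (Nat.pow_le_pow_left h2 2) hm2.le
      _ = 162 * 1 * M ^ 5 := by ring
      _ ≤ 10 ^ 5 * m.divisors.card ^ 2 * M ^ 5 := by
        apply Nat.mul_le_mul_right
        exact Nat.mul_le_mul (by norm_num) h2'
  -- main case
  have hnr : (0 : ℝ) < n := by
    have : 0 < n := by omega
    exact_mod_cast this
  have hmr : (0 : ℝ) < m := by exact_mod_cast hm1
  have hmnr : (m : ℝ) ≤ n := by exact_mod_cast hmn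
  have hM1r : (1 : ℝ) ≤ M := by exact_mod_cast hM1
  have hm2r : 2 * (M : ℝ) ≤ m := by exact_mod_cast hm2
  have hτ1r : (1 : ℝ) ≤ m.divisors.card := by exact_mod_cast hτ1
  set D : ℝ := Real.sqrt (40 * n * M / m) with hDdef
  have hD0 : 0 ≤ D := Real.sqrt_nonneg _
  have hDsq : (m : ℝ) * D ^ 2 = 40 * n * M := by
    rw [hDdef, Real.sq_sqrt (by positivity)]
    field_simp
  set q : ℝ := Real.sqrt n with hqdef
  have hq2 : q ^ 2 = n := Real.sq_sqrt hnr.le
  have hsq : (s : ℝ) ≤ q := by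
    rw [hqdef]
    apply Real.le_sqrt_of_sq_le
    have : s ^ 2 ≤ n := by rw [sq]; exact hs1
    exact_mod_cast this
  have hq4 : 4 ≤ q := by
    have : (4 : ℝ) ≤ s := by exact_mod_cast hs4
    linarith
  have hqM : q ≤ 3 * M := by
    have h1 : (n : ℝ) ≤ 3 * s * M := by exact_mod_cast hn3
    have h2 : q * q ≤ q * (3 * M) := by
      calc q * q = n := by rw [← hq2]; ring
        _ ≤ 3 * s * M := h1
        _ ≤ 3 * q * M := by nlinarith
        _ = q * (3 * M) := by ring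
    exact le_of_mul_le_mul_left h2 (by linarith)
  -- exceptional blocks
  have hsec := second_moment hP M hM hM1 T hT hdiv hm2
  rw [← hndef, ← hmdef] at hsec
  set B := Ps.filter (fun e => ¬ |(#e : ℝ) - (n : ℝ) / m * #(e ∩ T)| ≤ D) with hB
  set A := Ps.filter (fun e => |(#e : ℝ) - (n : ℝ) / m * #(e ∩ T)| ≤ D) with hA
  have hAB : #A + #B = #Ps := card_filter_add_card_filter_not _
  have hBP : B ⊆ P := (filter_subset _ _).trans (filter_subset _ _)
  have hBcard : 4 * (#B : ℝ) ≤ n := by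
    have h1 : ∀ e ∈ B, 40 * (m : ℝ) * M / n ≤ ((#(e ∩ T) : ℝ) - ((m : ℝ) / n) * #e) ^ 2 := by
      intro e he
      rw [hB, mem_filter] at he
      have h2 : D < |(#e : ℝ) - (n : ℝ) / m * #(e ∩ T)| := not_le.1 he.2
      have h3 : D ^ 2 < ((#e : ℝ) - (n : ℝ) / m * #(e ∩ T)) ^ 2 := by
        rw [← sq_abs ((#e : ℝ) - (n : ℝ) / m * #(e ∩ T))]
        exact pow_lt_pow_left₀ h2 hD0 (by norm_num)
      have h4 : ((#(e ∩ T) : ℝ) - ((m : ℝ) / n) * #e) ^ 2 =
          ((m : ℝ) / n) ^ 2 * ((#e : ℝ) - (n : ℝ) / m * #(e ∩ T)) ^ 2 := by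
        field_simp
        ring
      have h5 : 40 * (m : ℝ) * M / n = ((m : ℝ) / n) ^ 2 * D ^ 2 := by
        have h6 : D ^ 2 = 40 * n * M / m := by
          rw [eq_div_iff hmr.ne', mul_comm]
          exact hDsq
        rw [h6]
        field_simp
      rw [h4, h5]
      exact mul_le_mul_of_nonneg_left h3.le (sq_nonneg _)
    have h2 : (#B : ℝ) * (40 * (m : ℝ) * M / n) ≤ 10 * m * M := by
      calc (#B : ℝ) * (40 * (m : ℝ) * M / n) = ∑ e ∈ B, 40 * (m : ℝ) * M / n := by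
            rw [sum_const, nsmul_eq_mul]
        _ ≤ ∑ e ∈ B, ((#(e ∩ T) : ℝ) - ((m : ℝ) / n) * #e) ^ 2 := sum_le_sum h1
        _ ≤ ∑ e ∈ P, ((#(e ∩ T) : ℝ) - ((m : ℝ) / n) * #e) ^ 2 :=
            sum_le_sum_of_subset_of_nonneg hBP fun _ _ _ => sq_nonneg _
        _ ≤ 10 * m * M := hsec
    have h3 : (#B : ℝ) * (40 * (m : ℝ) * M / n) = (4 * (#B : ℝ)) * (10 * m * M) / n := by ring
    rw [h3, div_le_iff₀ hnr] at h2
    have h4 : 0 < 10 * (m : ℝ) * M := by positivity
    have h5 : (4 * (#B : ℝ)) * (10 * m * M) ≤ n * (10 * m * M) := by linarith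
    exact le_of_mul_le_mul_right h5 h4
  have hAcard : (n : ℝ) / 2 ≤ #A := by
    have h1 : ((#A + #B : ℕ) : ℝ) = #Ps := by exact_mod_cast hAB
    have h2 : (n : ℝ) ≤ #Ps + s := by exact_mod_cast hPs_card
    have h3 : 4 * (s : ℝ) ≤ n := by
      have : 4 * s ≤ n := by nlinarith
      exact_mod_cast this
    push_cast at h1
    linarith
  -- values of the intersection
  set A0 : ℕ := ⌊(m : ℝ) / n * (2 * s + 1 + D)⌋₊ with hA0
  have hval : ∀ e ∈ A, #(e ∩ T) ≤ A0 := by
    intro e he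
    rw [hA, mem_filter, hPs, mem_filter] at he
    apply Nat.le_floor
    have h1 : (#e : ℝ) ≤ 2 * s + 1 := by
      have : #e ≤ 2 * s + 1 := by omega
      exact_mod_cast this
    have h2 := (abs_le.1 he.2).1
    have h3 : (n : ℝ) / m * #(e ∩ T) ≤ 2 * s + 1 + D := by linarith
    have h4 : (#(e ∩ T) : ℝ) = (m : ℝ) / n * ((n : ℝ) / m * #(e ∩ T)) := by
      rw [← mul_assoc, div_mul_div_comm, mul_comm (m : ℝ) n, div_self (mul_pos hnr hmr).ne',
        one_mul]
    rw [h4]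
    exact mul_le_mul_of_nonneg_left h3 (div_nonneg hmr.le hnr.le)
  set Vs := A.image (fun e => #(e ∩ T)) with hVs
  have hVcard : m * #Vs ≤ m + m.divisors.card * A0 * M := by
    have h1 : Vs ⊆ insert 0 ({a ∈ range (A0 + 1) | 1 ≤ a ∧ ∃ w, 1 ≤ w ∧ w ≤ M ∧ m ∣ w * a}) := by
      intro a ha
      rw [hVs, mem_image] at ha
      obtain ⟨e, he, rfl⟩ := ha
      rw [mem_insert, mem_filter, mem_range]
      by_cases h0 : #(e ∩ T) = 0
      · exact Or.inl h0
      · right
        have heP : e ∈ P := by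
          rw [hA, mem_filter, hPs, mem_filter] at he
          exact he.1.1
        exact ⟨Nat.lt_succ_of_le (hval e he), by omega, hdiv e heP⟩
    have h2 := (card_le_card h1).trans (card_insert_le _ _)
    have h3 := values_le m M A0 hm1
    calc m * #Vs ≤ m * (#{a ∈ range (A0 + 1) | 1 ≤ a ∧ ∃ w, 1 ≤ w ∧ w ≤ M ∧ m ∣ w * a} + 1) :=
          Nat.mul_le_mul_left _ h2
      _ = m + m * #{a ∈ range (A0 + 1) | 1 ≤ a ∧ ∃ w, 1 ≤ w ∧ w ≤ M ∧ m ∣ w * a} := by ring
      _ ≤ m + m.divisors.card * A0 * M := Nat.add_le_add_left h3 _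
  have hA0r : (A0 : ℝ) ≤ (m : ℝ) / n * (2.25 * q + D) := by
    have h1 : (A0 : ℝ) ≤ (m : ℝ) / n * (2 * s + 1 + D) := Nat.floor_le (by positivity)
    refine h1.trans (mul_le_mul_of_nonneg_left ?_ (by positivity))
    linarith
  have hVr : (m : ℝ) * #Vs ≤ m + m.divisors.card * M * (m / n * (2.25 * q + D)) := by
    have h1 : ((m * #Vs : ℕ) : ℝ) ≤ ((m + m.divisors.card * A0 * M : ℕ) : ℝ) := by
      exact_mod_cast hVcard
    push_cast at h1
    have h2 : (m.divisors.card : ℝ) * A0 * M = m.divisors.card * M * A0 := by ring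
    have h3 : (m.divisors.card : ℝ) * M * A0 ≤
        m.divisors.card * M * (m / n * (2.25 * q + D)) :=
      mul_le_mul_of_nonneg_left hA0r (by positivity)
    linarith
  have hfin : (n : ℝ) / 2 ≤ #Vs * (M * (2 * D + 1)) := by
    refine hAcard.trans ?_
    rw [card_eq_sum_card_image (fun e => #(e ∩ T)) A]
    push_cast
    calc ∑ a ∈ A.image (fun e => #(e ∩ T)), (#{e ∈ A | #(e ∩ T) = a} : ℝ)
        ≤ ∑ a ∈ A.image (fun e => #(e ∩ T)), (M * (2 * D + 1) : ℝ) := by
          refine sum_le_sum fun a _ => ?_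
          refine window_le P M hM _ ?_ ((n : ℝ) / m * a) D hD0 ?_
          · exact (filter_subset _ _).trans ((filter_subset _ _).trans (filter_subset _ _))
          · intro e he
            rw [mem_filter] at he
            have h1 := he.1
            rw [hA, mem_filter] at h1
            rw [← he.2]
            exact h1.2
      _ = #Vs * (M * (2 * D + 1)) := by rw [sum_const, nsmul_eq_mul]
  have hres := arith n m M q D m.divisors.card hq2 hq4 hmr hmnr hM1r hm2r hτ1r hqM hD0 hDsq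
    #Vs hVr hfin
  exact_mod_cast hres

/-- the inequality for an orbit of a group of automorphisms -/
theorem orbit_ineq (H : Finset (Finset V)) (hH : H.IsPairwiseBalancedDesign)
    (hn2 : 2 ≤ Fintype.card V) (hn : ∀ e ∈ H, #e < Fintype.card V) (M : ℕ)
    (hM : ∀ t, #{e ∈ H | #e = t} ≤ M) (G : Type) [Group G] [MulAction G V]
    (hG : ∀ (g : G), ∀ e ∈ H, e.image (fun v => g • v) ∈ H) (x : V) :
    Fintype.card V ^ 2 * Nat.card (MulAction.orbit G x) ≤
      10 ^ 5 * (Nat.card (MulAction.orbit G x)).divisors.card ^ 2 * M ^ 5 := by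
  classical
  set T : Finset V := univ.filter (fun y => y ∈ MulAction.orbit G x) with hT
  have hTmem : ∀ y, y ∈ T ↔ y ∈ MulAction.orbit G x := by
    intro y
    rw [hT, mem_filter]
    exact ⟨fun h => h.2, fun h => ⟨mem_univ y, h⟩⟩
  have hTc : Nat.card (MulAction.orbit G x) = #T := by
    rw [hT, Nat.card_eq_fintype_card, Fintype.card_subtype]
  rw [hTc]
  refine core H hH hn hn2 M hM T ⟨x, (hTmem x).2 (MulAction.mem_orbit_self x)⟩ ?_
  intro e he
  exact orbit_dvd H M hM G hG x T hTmem he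

end Pool.Agent.SYM7
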