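import Pool.Agent.Helper63.PBD.Barrier

/-!
# SYM7: counting in a pairwise balanced design with at most `M` blocks of each size
-/

set_option autoImplicit false

namespace Pool.Agent.SYM7

open Finset Pool.Agent.Helper63.PBD

variable {V : Type} [Fintype V] [DecidableEq V]

omit [Fintype V] in
theorem inter_le {P : Finset (Finset V)} (hP : P.IsPairwiseBalancedDesign) {e e' : Finset V}
    (he : e ∈ P) (he' : e' ∈ P) (hne : e ≠ e') : #(e ∩ e') ≤ 1 := by
  by_contra h
  push Not at h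
  obtain ⟨x, hx, y, hy, hxy⟩ := one_lt_card.1 h
  obtain ⟨B, -, hB⟩ := hP.2 {x, y} (card_pair hxy)
  have h1 : e = B := hB e ⟨he, by
    intro z hz
    simp only [mem_insert, mem_singleton] at hz
    rcases hz with rfl | rfl
    · exact (mem_inter.1 hx).1
    · exact (mem_inter.1 hy).1⟩
  have h2 : e' = B := hB e' ⟨he', by
    intro z hz
    simp only [mem_insert, mem_singleton] at hz
    rcases hz with rfl | rfl
    · exact (mem_inter.1 hx).2
    · exact (mem_inter.1 hy).2⟩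
  exact hne (h1.trans h2.symm)

/-- the sum of the sizes of `l` blocks -/
theorem fam_le {P : Finset (Finset V)} (hP : P.IsPairwiseBalancedDesign) (Q : Finset (Finset V))
    (hQ : Q ⊆ P) : 2 * ∑ e ∈ Q, #e + #Q ≤ 2 * Fintype.card V + #Q ^ 2 := by
  classical
  have h1 : ∑ x : V, #{e ∈ Q | x ∈ e} = ∑ e ∈ Q, #e := by
    simp only [card_filter]
    rw [sum_comm]
    refine sum_congr rfl fun e _ => ?_
    rw [← card_filter]
    congr 1
    ext x
    simp
  have h2 : ∑ x : V, #{e ∈ Q | x ∈ e} ^ 2 = ∑ e ∈ Q, ∑ e' ∈ Q, #(e ∩ e') := by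
    have h3 : ∀ x : V, #{e ∈ Q | x ∈ e} ^ 2 = ∑ e ∈ Q, ∑ e' ∈ Q, (if x ∈ e ∩ e' then 1 else 0) := by
      intro x
      rw [sq, card_filter, sum_mul_sum]
      refine sum_congr rfl fun e _ => sum_congr rfl fun e' _ => ?_
      by_cases h : x ∈ e <;> by_cases h' : x ∈ e' <;> simp [h, h']
    simp only [h3]
    rw [sum_comm]
    refine sum_congr rfl fun e _ => ?_
    rw [sum_comm]
    refine sum_congr rfl fun e' _ => ?_
    rw [← card_filter]
    congr 1
    ext x
    simp
  have h4 : ∑ e ∈ Q, ∑ e' ∈ Q, #(e ∩ e') + #Q ≤ ∑ e ∈ Q, #e + #Q ^ 2 := by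
    have h5 : ∀ e ∈ Q, ∑ e' ∈ Q, #(e ∩ e') + 1 ≤ #e + #Q := by
      intro e he
      rw [← add_sum_erase Q _ he, inter_self]
      have h6 : ∑ e' ∈ Q.erase e, #(e ∩ e') ≤ ∑ e' ∈ Q.erase e, 1 := by
        refine sum_le_sum fun e' he' => ?_
        rw [mem_erase] at he'
        exact inter_le hP (hQ he) (hQ he'.2) (Ne.symm he'.1)
      rw [sum_const, smul_eq_mul, mul_one, card_erase_of_mem he] at h6
      have h7 : 0 < #Q := card_pos.mpr ⟨e, he⟩
      omega
    have h8 := sum_le_sum h5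
    rw [sum_add_distrib, sum_add_distrib, sum_const, sum_const, smul_eq_mul, smul_eq_mul,
      mul_one, ← sq] at h8
    exact h8
  have h9 : ∑ x : V, 3 * #{e ∈ Q | x ∈ e} ≤ ∑ x : V, (2 + #{e ∈ Q | x ∈ e} ^ 2) := by
    refine sum_le_sum fun x _ => ?_
    generalize #{e ∈ Q | x ∈ e} = d
    rcases d with _ | _ | d
    · norm_num
    · norm_num
    · nlinarith
  rw [← mul_sum, sum_add_distrib, sum_const, card_univ, smul_eq_mul, h1, h2] at h9
  omega

/-- large blocks -/
theorem large_le {P : Finset (Finset V)} (hP : P.IsPairwiseBalancedDesign) :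
    #{e ∈ P | 2 * Nat.sqrt (Fintype.card V) + 2 ≤ #e} ≤ Nat.sqrt (Fintype.card V) := by
  set n := Fintype.card V with hn
  set s := Nat.sqrt n with hs
  by_contra hcon
  push Not at hcon
  obtain ⟨Q, hQ, hQc⟩ := exists_subset_card_eq (Nat.succ_le_of_lt hcon)
  have h1 := fam_le hP Q (hQ.trans (filter_subset _ _))
  have h2 : (s + 1) * (2 * s + 2) ≤ ∑ e ∈ Q, #e := by
    have h3 : ∀ e ∈ Q, 2 * s + 2 ≤ #e := fun e he => (mem_filter.1 (hQ he)).2
    have h4 := card_nsmul_le_sum Q (fun e => #e) (2 * s + 2) h3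
    rw [hQc, smul_eq_mul] at h4
    exact h4
  have h5 : n < (s + 1) * (s + 1) := Nat.lt_succ_sqrt n
  rw [hQc, ← hn] at h1
  have h6 : s.succ = s + 1 := rfl
  rw [h6] at h1
  nlinarith

theorem large_sum {P : Finset (Finset V)} (hP : P.IsPairwiseBalancedDesign) :
    2 * ∑ e ∈ P.filter (fun e => 2 * Nat.sqrt (Fintype.card V) + 2 ≤ #e), #e ≤
      3 * Fintype.card V := by
  have h1 := fam_le hP (P.filter (fun e => 2 * Nat.sqrt (Fintype.card V) + 2 ≤ #e))
    (filter_subset _ _)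
  have h2 := large_le hP
  have h3 : Nat.sqrt (Fintype.card V) * Nat.sqrt (Fintype.card V) ≤ Fintype.card V :=
    Nat.sqrt_le _
  generalize #{e ∈ P | 2 * Nat.sqrt (Fintype.card V) + 2 ≤ #e} = l at h1 h2
  generalize Nat.sqrt (Fintype.card V) = s at h1 h2 h3 ⊢
  nlinarith

omit [Fintype V] [DecidableEq V] in
/-- the number of blocks with sizes in a set -/
theorem sizes_le (P : Finset (Finset V)) (M : ℕ) (hM : ∀ t, #{e ∈ P | #e = t} ≤ M)
    (Q : Finset (Finset V)) (hQ : Q ⊆ P) (W : Finset ℕ) (hW : ∀ e ∈ Q, #e ∈ W) :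
    #Q ≤ M * #W := by
  have h1 : #Q ≤ M * #(Q.image card) := by
    apply card_le_mul_card_image
    intro t _
    refine (card_le_card ?_).trans (hM t)
    intro e he
    rw [mem_filter] at he ⊢
    exact ⟨hQ he.1, he.2⟩
  refine h1.trans (Nat.mul_le_mul_left _ (card_le_card ?_))
  intro t ht
  rw [mem_image] at ht
  obtain ⟨e, he, rfl⟩ := ht
  exact hW e he

/-- the sum of all sizes -/
theorem total_le {P : Finset (Finset V)} (hP : P.IsPairwiseBalancedDesign) (M : ℕ)
    (hM : ∀ t, #{e ∈ P | #e = t} ≤ M) (hM1 : 1 ≤ M) (hn : 1 ≤ Fintype.card V) :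
    ∑ e ∈ P, #e ≤ 8 * M * Fintype.card V := by
  classical
  have h1 := large_sum hP
  set n := Fintype.card V with hndef
  set s := Nat.sqrt n with hs
  have hs2 : s * s ≤ n := Nat.sqrt_le _
  have hsn : s ≤ n := Nat.sqrt_le_self n
  have h2 : ∑ e ∈ P, #e = ∑ e ∈ P.filter (fun e => 2 * s + 2 ≤ #e), #e +
      ∑ e ∈ P.filter (fun e => ¬ 2 * s + 2 ≤ #e), #e :=
    (sum_filter_add_sum_filter_not P _ _).symm
  have h3 : ∑ e ∈ P.filter (fun e => ¬ 2 * s + 2 ≤ #e), #e ≤ ∑ t ∈ range (2 * s + 2), M * t := by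
    have h4 : ∀ e ∈ P.filter (fun e => ¬ 2 * s + 2 ≤ #e), #e ∈ range (2 * s + 2) := by
      intro e he
      rw [mem_filter] at he
      rw [mem_range]
      omega
    rw [← sum_fiberwise_of_maps_to h4]
    refine sum_le_sum fun t _ => ?_
    have h5 : ∑ e ∈ (P.filter (fun e => ¬ 2 * s + 2 ≤ #e)).filter (fun e => #e = t), #e =
        #((P.filter (fun e => ¬ 2 * s + 2 ≤ #e)).filter (fun e => #e = t)) * t := by
      refine (sum_congr rfl (g := fun _ => t) fun e he => (mem_filter.1 he).2).trans ?_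
      rw [sum_const, smul_eq_mul]
    rw [h5]
    refine Nat.mul_le_mul_right _ ((card_le_card ?_).trans (hM t))
    intro e he
    rw [mem_filter, mem_filter] at he
    rw [mem_filter]
    exact ⟨he.1.1, he.2⟩
  have h6 : ∑ t ∈ range (2 * s + 2), M * t = M * ((s + 1) * (2 * s + 1)) := by
    rw [← mul_sum]
    congr 1
    have h7 := Finset.sum_range_id_mul_two (2 * s + 2)
    have h8 : (∑ i ∈ range (2 * s + 2), i) * 2 = ((s + 1) * (2 * s + 1)) * 2 := by
      rw [h7]
      have h9 : 2 * s + 2 - 1 = 2 * s + 1 := by omega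
      rw [h9]
      ring
    omega
  rw [h6] at h3
  have h10 : (s + 1) * (2 * s + 1) ≤ 6 * n := by nlinarith
  have h11 : M * ((s + 1) * (2 * s + 1)) ≤ M * (6 * n) := Nat.mul_le_mul_left _ h10
  have h12 : n ≤ M * n := Nat.le_mul_of_pos_left n hM1
  rw [h2]
  nlinarith

end Pool.Agent.SYM7
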