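import Pool.Agent.SYM7.Base

/-!
# SYM7: the intersections of the blocks with an orbit
-/

set_option autoImplicit false

namespace Pool.Agent.SYM7

open Finset Pool.Agent.Helper63.PBD

variable {V : Type} [Fintype V] [DecidableEq V]

omit [Fintype V] in
/-- the size of a block orbit times the size of the intersection with a point orbit -/
theorem orbit_dvd (P : Finset (Finset V)) (M : ℕ) (hM : ∀ t, #{e ∈ P | #e = t} ≤ M)
    (G : Type) [Group G] [MulAction G V] (hG : ∀ (g : G), ∀ e ∈ P, e.image (fun v => g • v) ∈ P)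
    (x : V) (T : Finset V) (hT : ∀ y, y ∈ T ↔ y ∈ MulAction.orbit G x) {e : Finset V}
    (he : e ∈ P) : ∃ w, 1 ≤ w ∧ w ≤ M ∧ #T ∣ w * #(e ∩ T) := by
  classical
  set O : Finset (Finset V) := P.filter (fun e' => ∃ g : G, e' = e.image (fun v => g • v)) with hO
  have hinj : ∀ g : G, Function.Injective (fun v : V => g • v) := fun g => MulAction.injective g
  have heO : e ∈ O := by
    rw [hO, mem_filter]
    refine ⟨he, 1, ?_⟩
    ext v
    simp
  have hOG : ∀ (g : G), ∀ e' ∈ O, e'.image (fun v => g • v) ∈ O := by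
    intro g e' he'
    rw [hO, mem_filter] at he' ⊢
    obtain ⟨h1, g', rfl⟩ := he'
    refine ⟨hG g _ h1, g * g', ?_⟩
    rw [image_image]
    refine image_congr fun v _ => ?_
    exact (mul_smul g g' v).symm
  have hTG : ∀ (g : G) (y : V), g • y ∈ T ↔ y ∈ T := by
    intro g y
    rw [hT, hT]
    constructor
    · rintro ⟨g', hg'⟩
      refine ⟨g⁻¹ * g', ?_⟩
      change g' • x = g • y at hg'
      change (g⁻¹ * g') • x = y
      rw [mul_smul, hg', inv_smul_smul]
    · rintro ⟨g', rfl⟩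
      exact ⟨g * g', mul_smul g g' x⟩
  have hint : ∀ e' ∈ O, #(e' ∩ T) = #(e ∩ T) := by
    intro e' he'
    rw [hO, mem_filter] at he'
    obtain ⟨-, g, rfl⟩ := he'
    rw [← card_image_of_injective (e ∩ T) (hinj g)]
    congr 1
    ext v
    rw [mem_inter, mem_image, mem_image]
    constructor
    · rintro ⟨⟨u, hu, rfl⟩, hv⟩
      exact ⟨u, mem_inter.2 ⟨hu, (hTG g u).1 hv⟩, rfl⟩
    · rintro ⟨u, hu, rfl⟩
      rw [mem_inter] at hu
      exact ⟨⟨u, hu.1, rfl⟩, (hTG g u).2 hu.2⟩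
  have hsize : ∀ e' ∈ O, #e' = #e := by
    intro e' he'
    rw [hO, mem_filter] at he'
    obtain ⟨-, g, rfl⟩ := he'
    exact card_image_of_injective e (hinj g)
  have hdeg : ∀ y ∈ T, #{e' ∈ O | y ∈ e'} = #{e' ∈ O | x ∈ e'} := by
    intro y hy
    rw [hT] at hy
    obtain ⟨g, rfl⟩ := hy
    symm
    refine card_bij (fun e' _ => e'.image (fun v => g • v)) ?_ ?_ ?_
    · intro e' he'
      rw [mem_filter] at he' ⊢
      exact ⟨hOG g e' he'.1, mem_image.2 ⟨x, he'.2, rfl⟩⟩
    · intro e₁ _ e₂ _ h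
      exact image_injective (hinj g) h
    · intro e' he'
      rw [mem_filter] at he'
      refine ⟨e'.image (fun v => g⁻¹ • v), ?_, ?_⟩
      · rw [mem_filter]
        refine ⟨hOG _ e' he'.1, mem_image.2 ⟨g • x, he'.2, ?_⟩⟩
        exact inv_smul_smul g x
      · rw [image_image]
        ext v
        rw [mem_image]
        constructor
        · rintro ⟨u, hu, rfl⟩
          simp only [Function.comp_apply, smul_inv_smul]
          exact hu
        · intro hv
          exact ⟨v, hv, by simp only [Function.comp_apply, smul_inv_smul]⟩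
  refine ⟨#O, card_pos.2 ⟨e, heO⟩, ?_, #{e' ∈ O | x ∈ e'}, ?_⟩
  · refine (card_le_card ?_).trans (hM #e)
    intro e' he'
    rw [mem_filter]
    exact ⟨(mem_filter.1 he').1, hsize e' he'⟩
  · have h1 : ∑ e' ∈ O, #(e' ∩ T) = #O * #(e ∩ T) := by
      rw [sum_congr rfl hint, sum_const, smul_eq_mul]
    have h2 : ∑ y ∈ T, #{e' ∈ O | y ∈ e'} = #T * #{e' ∈ O | x ∈ e'} := by
      rw [sum_congr rfl hdeg, sum_const, smul_eq_mul]
    rw [← h1, ← h2]
    have h3 : ∀ e' ∈ O, #(e' ∩ T) = ∑ y ∈ T, if y ∈ e' then 1 else 0 := by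
      intro e' _
      rw [← card_filter, inter_comm, filter_mem_eq_inter]
    rw [sum_congr rfl h3, sum_comm]
    refine sum_congr rfl fun y _ => ?_
    rw [card_filter]

open Classical in
/-- the number of possible values -/
theorem values_le (m M A : ℕ) (hm : 1 ≤ m) :
    m * #{a ∈ range (A + 1) | 1 ≤ a ∧ ∃ w, 1 ≤ w ∧ w ≤ M ∧ m ∣ w * a} ≤
      m.divisors.card * A * M := by
  set D : Finset ℕ := m.divisors.filter (fun d => m ≤ d * M) with hD
  have hsub : {a ∈ range (A + 1) | 1 ≤ a ∧ ∃ w, 1 ≤ w ∧ w ≤ M ∧ m ∣ w * a} ⊆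
      D.biUnion (fun d => (Ioc 0 A).filter (fun a => d ∣ a)) := by
    intro a ha
    rw [mem_filter, mem_range] at ha
    obtain ⟨h1, h2, w, hw1, hw2, h3⟩ := ha
    rw [mem_biUnion]
    have hg : 0 < Nat.gcd m w := Nat.gcd_pos_of_pos_left w hm
    have hd1 : m / Nat.gcd m w ∣ a := by
      have h4 : m / Nat.gcd m w ∣ (w / Nat.gcd m w) * a := by
        rw [← Nat.mul_dvd_mul_iff_left hg]
        rw [Nat.mul_div_cancel' (Nat.gcd_dvd_left m w), ← mul_assoc,
          Nat.mul_div_cancel' (Nat.gcd_dvd_right m w)]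
        exact h3
      exact (Nat.coprime_div_gcd_div_gcd hg).dvd_of_dvd_mul_left h4
    refine ⟨m / Nat.gcd m w, ?_, ?_⟩
    · rw [hD, mem_filter, Nat.mem_divisors]
      refine ⟨⟨Nat.div_dvd_of_dvd (Nat.gcd_dvd_left m w), by omega⟩, ?_⟩
      calc m = m / Nat.gcd m w * Nat.gcd m w := (Nat.div_mul_cancel (Nat.gcd_dvd_left m w)).symm
        _ ≤ m / Nat.gcd m w * M :=
          Nat.mul_le_mul_left _ ((Nat.gcd_le_right m (show 0 < w by omega)).trans hw2)
    · rw [mem_filter, mem_Ioc]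
      exact ⟨⟨by omega, by omega⟩, hd1⟩
  have h5 := card_le_card hsub
  have h6 : ∀ d ∈ D, m * #((Ioc 0 A).filter (fun a => d ∣ a)) ≤ A * M := by
    intro d hd
    rw [hD, mem_filter] at hd
    have h7 : #((Ioc 0 A).filter (fun a => d ∣ a)) = A / d := Nat.Ioc_filter_dvd_card_eq_div A d
    rw [h7]
    calc m * (A / d) ≤ d * M * (A / d) := Nat.mul_le_mul_right _ hd.2
      _ = (d * (A / d)) * M := by ring
      _ ≤ A * M := Nat.mul_le_mul_right _ (Nat.mul_div_le A d)
  calc m * #{a ∈ range (A + 1) | 1 ≤ a ∧ ∃ w, 1 ≤ w ∧ w ≤ M ∧ m ∣ w * a}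
      ≤ m * ∑ d ∈ D, #((Ioc 0 A).filter (fun a => d ∣ a)) :=
        Nat.mul_le_mul_left _ (h5.trans card_biUnion_le)
    _ = ∑ d ∈ D, m * #((Ioc 0 A).filter (fun a => d ∣ a)) := mul_sum _ _ _
    _ ≤ ∑ d ∈ D, A * M := sum_le_sum h6
    _ = #D * (A * M) := by rw [sum_const, smul_eq_mul]
    _ ≤ m.divisors.card * (A * M) := Nat.mul_le_mul_right _ (card_le_card (filter_subset _ _))
    _ = m.divisors.card * A * M := by ring

end Pool.Agent.SYM7
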