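import Pool.Agent.SYM7.Div

/-!
# SYM7: the inequality
-/

set_option autoImplicit false

namespace Pool.Agent.SYM7

open Finset Pool.Agent.Helper63.PBD

variable {V : Type} [Fintype V] [DecidableEq V]

/-- points of `T` are on few blocks -/
theorem deg_le {P : Finset (Finset V)} (hP : P.IsPairwiseBalancedDesign) (M : ℕ) (T : Finset V)
    (hdiv : ∀ e ∈ P, ∃ w, 1 ≤ w ∧ w ≤ M ∧ #T ∣ w * #(e ∩ T)) (hm : 2 * M ≤ #T) {x : V}
    (hx : x ∈ T) : #{e ∈ P | x ∈ e} ≤ 2 * M := by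
  classical
  have h1 : ∑ e ∈ P.filter (fun e => x ∈ e), #(e ∩ T) + 1 = #T + #{e ∈ P | x ∈ e} := by
    have h2 : ∀ e ∈ P.filter (fun e => x ∈ e), #(e ∩ T) = ∑ y ∈ T, if y ∈ e then 1 else 0 := by
      intro e _
      rw [← card_filter, inter_comm, filter_mem_eq_inter]
    rw [sum_congr rfl h2, sum_comm]
    have h3 : ∀ y ∈ T, (∑ e ∈ P.filter (fun e => x ∈ e), if y ∈ e then 1 else 0) =
        if y = x then #{e ∈ P | x ∈ e} else 1 := by
      intro y _
      rw [← card_filter, filter_filter]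
      by_cases hyx : y = x
      · subst hyx
        rw [if_pos rfl]
        simp only [and_self]
      · rw [if_neg hyx]
        exact pair_count P hP (Ne.symm hyx)
    rw [sum_congr rfl h3, ← add_sum_erase T _ hx, if_pos rfl]
    have h4 : ∑ y ∈ T.erase x, (if y = x then #{e ∈ P | x ∈ e} else 1) = ∑ y ∈ T.erase x, 1 :=
      sum_congr rfl fun y hy => if_neg (ne_of_mem_erase hy)
    rw [h4, sum_const, smul_eq_mul, mul_one, card_erase_of_mem hx]
    have h5 : 0 < #T := card_pos.2 ⟨x, hx⟩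
    omega
  have h6 : #T * #{e ∈ P | x ∈ e} ≤ M * ∑ e ∈ P.filter (fun e => x ∈ e), #(e ∩ T) := by
    rw [mul_sum, mul_comm (#T), ← smul_eq_mul (a := #{e ∈ P | x ∈ e}), ← sum_const]
    refine sum_le_sum fun e he => ?_
    rw [mem_filter] at he
    obtain ⟨w, hw1, hw2, hw3⟩ := hdiv e he.1
    have h7 : 0 < #(e ∩ T) := card_pos.2 ⟨x, mem_inter.2 ⟨he.2, hx⟩⟩
    exact (Nat.le_of_dvd (by positivity) hw3).trans (Nat.mul_le_mul_right _ hw2)
  generalize ∑ e ∈ P.filter (fun e => x ∈ e), #(e ∩ T) = S at h1 h6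
  generalize #{e ∈ P | x ∈ e} = r at h1 h6 ⊢
  have h0 : 1 ≤ #T := card_pos.2 ⟨x, hx⟩
  generalize #T = m at h1 h6 hm h0
  by_contra hcon
  push Not at hcon
  have h8 : M * (S + 1) = M * (m + r) := by rw [h1]
  zify at h6 h8 hm hcon
  have hM0 : (0 : ℤ) ≤ M := Int.natCast_nonneg M
  have h9 : (0 : ℤ) ≤ ((m : ℤ) - M) * ((r : ℤ) - (2 * M + 1)) :=
    mul_nonneg (by linarith) (by linarith)
  have h10 : (0 : ℤ) ≤ (M : ℤ) * ((m : ℤ) - 2 * M) := mul_nonneg hM0 (by linarith)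
  have h11 : (1 : ℤ) ≤ m := by exact_mod_cast h0
  nlinarith

/-- the second moment -/
theorem second_moment {P : Finset (Finset V)} (hP : P.IsPairwiseBalancedDesign) (M : ℕ)
    (hM : ∀ t, #{e ∈ P | #e = t} ≤ M) (hM1 : 1 ≤ M) (T : Finset V) (hTne : T.Nonempty)
    (hdiv : ∀ e ∈ P, ∃ w, 1 ≤ w ∧ w ≤ M ∧ #T ∣ w * #(e ∩ T)) (hm : 2 * M ≤ #T) :
    ∑ e ∈ P, ((#(e ∩ T) : ℝ) - ((#T : ℝ) / Fintype.card V) * #e) ^ 2 ≤ 10 * #T * M := by
  classical
  have hTn : #T ≤ Fintype.card V := card_le_univ T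
  have hTpos : 0 < #T := card_pos.2 hTne
  have hnpos : 0 < Fintype.card V := lt_of_lt_of_le hTpos hTn
  have hnr : (0 : ℝ) < Fintype.card V := by exact_mod_cast hnpos
  set a : ℝ := (#T : ℝ) / Fintype.card V with ha
  have ha0 : 0 ≤ a := by positivity
  have ha1 : a ≤ 1 := by
    rw [ha, div_le_one hnr]
    exact_mod_cast hTn
  have hav : a * Fintype.card V = #T := by
    rw [ha]
    field_simp
  set u : V → ℝ := fun x => (if x ∈ T then (1 : ℝ) else 0) - a with hu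
  have hsum : ∀ B : Finset V, ∑ x ∈ B, u x = (#(B ∩ T) : ℝ) - a * #B := by
    intro B
    rw [hu]
    simp only
    rw [sum_sub_distrib, sum_const, nsmul_eq_mul, ← sum_filter, sum_const, nsmul_eq_mul,
      mul_one, filter_mem_eq_inter]
    ring
  have hu0 : ∑ x, u x = 0 := by
    rw [hsum univ, univ_inter, card_univ, hav, sub_self]
  have h1 := quad P hP u hu0
  simp only [hsum] at h1
  rw [h1]
  have h2 : ∀ x : V, (u x) ^ 2 * ((#{B ∈ P | x ∈ B} : ℝ) - 1) ≤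
      (if x ∈ T then (2 * M : ℝ) else 0) + a ^ 2 * (#{B ∈ P | x ∈ B} : ℝ) := by
    intro x
    have hr0 : (0 : ℝ) ≤ (#{B ∈ P | x ∈ B} : ℝ) := Nat.cast_nonneg _
    by_cases hx : x ∈ T
    · have h3 : ((#{B ∈ P | x ∈ B} : ℕ) : ℝ) ≤ 2 * M := by
        exact_mod_cast deg_le hP M T hdiv hm hx
      rw [if_pos hx]
      have h4 : u x = 1 - a := by rw [hu]; simp only [hx, if_true]
      rw [h4]
      have h5 : (1 - a) ^ 2 ≤ 1 := by nlinarith
      have h6 : 0 ≤ (1 - a) ^ 2 := sq_nonneg _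
      nlinarith [mul_nonneg (sq_nonneg a) hr0]
    · rw [if_neg hx]
      have h4 : u x = -a := by rw [hu]; simp only [hx, if_false]; ring
      rw [h4]
      nlinarith [sq_nonneg a]
  have h3 := sum_le_sum fun x (_ : x ∈ (univ : Finset V)) => h2 x
  rw [sum_add_distrib, ← mul_sum, ← sum_filter, sum_const, nsmul_eq_mul, filter_mem_eq_inter,
    univ_inter] at h3
  have h4 : ∑ x : V, (#{B ∈ P | x ∈ B} : ℝ) = ((∑ e ∈ P, #e : ℕ) : ℝ) := by
    have h5 : ∑ x : V, #{e ∈ P | x ∈ e} = ∑ e ∈ P, #e := by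
      simp only [card_filter]
      rw [sum_comm]
      refine sum_congr rfl fun e _ => ?_
      rw [← card_filter]
      congr 1
      ext x
      simp
    rw [← h5]
    push_cast
    rfl
  rw [h4] at h3
  have h5 : ((∑ e ∈ P, #e : ℕ) : ℝ) ≤ 8 * M * Fintype.card V := by
    exact_mod_cast total_le hP M hM hM1 hnpos
  have h6 : a ^ 2 * ((∑ e ∈ P, #e : ℕ) : ℝ) ≤ a ^ 2 * (8 * M * Fintype.card V) :=
    mul_le_mul_of_nonneg_left h5 (sq_nonneg a)
  have h7 : a ^ 2 * (8 * M * Fintype.card V) = 8 * M * (a * #T) := by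
    rw [← hav]; ring
  have h8 : (0 : ℝ) ≤ #T := Nat.cast_nonneg _
  have h9 : (0 : ℝ) ≤ M := Nat.cast_nonneg _
  have h10 : 8 * (M : ℝ) * (a * #T) ≤ 8 * M * #T := by
    apply mul_le_mul_of_nonneg_left _ (by positivity)
    nlinarith
  have h11 : (#T : ℝ) * (2 * M) = 2 * #T * M := by ring
  linarith

/-- real arithmetic for the last step -/
theorem arith (n m M q D τ : ℝ) (hq : q ^ 2 = n) (hq4 : 4 ≤ q) (hm0 : 0 < m) (hmn : m ≤ n)
    (hM1 : 1 ≤ M) (hmM : 2 * M ≤ m) (hτ : 1 ≤ τ) (hqM : q ≤ 3 * M) (hD0 : 0 ≤ D)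
    (hD : m * D ^ 2 = 40 * n * M) (N : ℝ) (hN : m * N ≤ m + τ * M * (m / n * (2.25 * q + D)))
    (hfin : n / 2 ≤ N * (M * (2 * D + 1))) : n ^ 2 * m ≤ 10 ^ 5 * τ ^ 2 * M ^ 5 := by
  have hn0 : 0 < n := lt_of_lt_of_le hm0 hmn
  have hq0 : 0 < q := by linarith
  -- bounds for `D`
  have hD1 : D ≤ 4.5 * q := by
    by_contra hcon
    push Not at hcon
    have h1 : (4.5 * q) ^ 2 < D ^ 2 := by
      apply pow_lt_pow_left₀ hcon (by positivity) (by norm_num)
    have h2 : m * (4.5 * q) ^ 2 < m * D ^ 2 := mul_lt_mul_of_pos_left h1 hm0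
    rw [hD] at h2
    have h3 : m * (4.5 * q) ^ 2 = 20.25 * m * n := by rw [← hq]; ring
    rw [h3] at h2
    nlinarith
  have hD2 : 6 ≤ D := by
    by_contra hcon
    push Not at hcon
    have h1 : D ^ 2 < 6 ^ 2 := pow_lt_pow_left₀ hcon hD0 (by norm_num)
    have h2 : m * D ^ 2 < m * 6 ^ 2 := mul_lt_mul_of_pos_left h1 hm0
    rw [hD] at h2
    nlinarith
  -- the bound for `N`
  have hN2 : N * q ≤ 9.75 * τ * M := by
    have h1 : τ * M * (m / n * (2.25 * q + D)) ≤ τ * M * (m / n * (6.75 * q)) := by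
      apply mul_le_mul_of_nonneg_left _ (by positivity)
      apply mul_le_mul_of_nonneg_left _ (by positivity)
      linarith
    have h2 : τ * M * (m / n * (6.75 * q)) = m * (6.75 * τ * M / q) := by
      rw [← hq]
      field_simp
    have h3 : m * N ≤ m * (1 + 6.75 * τ * M / q) := by
      rw [mul_add, mul_one]
      linarith
    have h4 : N ≤ 1 + 6.75 * τ * M / q := le_of_mul_le_mul_left h3 hm0
    calc N * q ≤ (1 + 6.75 * τ * M / q) * q := mul_le_mul_of_nonneg_right h4 hq0.le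
      _ = q + 6.75 * τ * M := by field_simp
      _ ≤ 9.75 * τ * M := by nlinarith
  have h5 : q ^ 3 ≤ 42.25 * τ * M ^ 2 * D := by
    have h6 : n / 2 * q ≤ N * (M * (2 * D + 1)) * q := mul_le_mul_of_nonneg_right hfin hq0.le
    have h7 : N * (M * (2 * D + 1)) * q = (N * q) * (M * (2 * D + 1)) := by ring
    rw [h7] at h6
    have h8 : (N * q) * (M * (2 * D + 1)) ≤ (9.75 * τ * M) * (M * (2 * D + 1)) :=
      mul_le_mul_of_nonneg_right hN2 (by positivity)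
    have h9 : (9.75 * τ * M) * (M * (2 * D + 1)) ≤ (9.75 * τ * M) * (M * (13 / 6 * D)) := by
      apply mul_le_mul_of_nonneg_left _ (by positivity)
      apply mul_le_mul_of_nonneg_left _ (by positivity)
      linarith
    have h10 : q ^ 3 = 2 * (n / 2 * q) := by rw [← hq]; ring
    rw [h10]
    calc 2 * (n / 2 * q) ≤ 2 * ((9.75 * τ * M) * (M * (13 / 6 * D))) := by linarith
      _ = 42.25 * τ * M ^ 2 * D := by ring
  have h6 : (q ^ 3) ^ 2 ≤ (42.25 * τ * M ^ 2 * D) ^ 2 := pow_le_pow_left₀ (by positivity) h5 2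
  have h7 : (q ^ 3) ^ 2 * m ≤ (42.25 * τ * M ^ 2 * D) ^ 2 * m :=
    mul_le_mul_of_nonneg_right h6 hm0.le
  have h8 : (42.25 * τ * M ^ 2 * D) ^ 2 * m = 42.25 ^ 2 * τ ^ 2 * M ^ 4 * (m * D ^ 2) := by ring
  have h9 : (q ^ 3) ^ 2 = n ^ 3 := by rw [← hq]; ring
  rw [h8, hD, h9] at h7
  have h10 : n * (n ^ 2 * m) ≤ n * (71402.5 * τ ^ 2 * M ^ 5) := by nlinarith
  have h11 := le_of_mul_le_mul_left h10 hn0
  have h12 : 71402.5 * τ ^ 2 * M ^ 5 ≤ 10 ^ 5 * τ ^ 2 * M ^ 5 := by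
    have : 0 ≤ τ ^ 2 * M ^ 5 := by positivity
    nlinarith
  linarith

end Pool.Agent.SYM7
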